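import Mathlib

/-!
The numerical corollary.
-/

set_option autoImplicit false
set_option linter.unusedVariables false

namespace Pool.Agent.T2H14.N

theorem choose_pow' (m K : ℕ) (hmK : m ≤ K) (r : ℕ) :
    (m.choose r : ℝ) * (K : ℝ) ^ r ≤ (K.choose r : ℝ) * (m : ℝ) ^ r := by
  induction r with
  | zero => simp
  | succ r ih =>
    rcases Nat.lt_or_ge m (r + 1) with h | h
    · rw [Nat.choose_eq_zero_of_lt h]
      push_cast
      rw [zero_mul]
      positivity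
    have e1 : (m.choose (r + 1) : ℝ) * (r + 1) = (m.choose r : ℝ) * (m - r) := by
      have := Nat.choose_succ_right_eq m r
      have h2 : ((m.choose (r + 1) * (r + 1) : ℕ) : ℝ) = ((m.choose r * (m - r) : ℕ) : ℝ) := by
        rw [this]
      rw [Nat.cast_mul, Nat.cast_mul, Nat.cast_sub (by omega)] at h2
      push_cast at h2
      exact h2
    have e2 : (K.choose (r + 1) : ℝ) * (r + 1) = (K.choose r : ℝ) * (K - r) := by
      have := Nat.choose_succ_right_eq K r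
      have h2 : ((K.choose (r + 1) * (r + 1) : ℕ) : ℝ) = ((K.choose r * (K - r) : ℕ) : ℝ) := by
        rw [this]
      rw [Nat.cast_mul, Nat.cast_mul, Nat.cast_sub (by omega)] at h2
      push_cast at h2
      exact h2
    have hr : (0 : ℝ) < (r : ℝ) + 1 := by positivity
    have hm' : (m : ℝ) ≤ K := by exact_mod_cast hmK
    have hmr : (r : ℝ) + 1 ≤ m := by exact_mod_cast h
    have h3 : ((m : ℝ) - r) * K ≤ ((K : ℝ) - r) * m := by nlinarith [Nat.cast_nonneg (α := ℝ) r]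
    refine le_of_mul_le_mul_left ?_ hr
    calc ((r : ℝ) + 1) * ((m.choose (r + 1) : ℝ) * (K : ℝ) ^ (r + 1))
        = ((m.choose (r + 1) : ℝ) * (r + 1)) * (K : ℝ) ^ (r + 1) := by ring
      _ = ((m.choose r : ℝ) * (K : ℝ) ^ r) * (((m : ℝ) - r) * K) := by rw [e1]; ring
      _ ≤ ((K.choose r : ℝ) * (m : ℝ) ^ r) * (((K : ℝ) - r) * m) := by
          refine mul_le_mul ih h3 ?_ (by positivity)
          exact mul_nonneg (by linarith) (by positivity)
      _ = ((K.choose r : ℝ) * (K - r)) * (m : ℝ) ^ (r + 1) := by ring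
      _ = _ := by rw [← e2]; ring

/-- the level used in the corollary -/
theorem exists_level {t k n : ℕ} {ε : ℝ} (ht : 2 ≤ t) (htk : t ≤ k) (hkn : k ≤ n)
    (hε0 : 0 < ε) (hε1 : ε ≤ 1)
    (hs : 2 / ε * min ((k : ℝ) - t) (((k : ℝ) - 1) / (t - 1) *
      Real.log (2 * (((k : ℝ) - 1) / (t - 1)) / ε) + 1) ≤ (n : ℝ) - k + 1) :
    ∃ j : ℕ, t - 1 ≤ j ∧ j ≤ k - 1 ∧ (k : ℝ) - 1 - j ≤ ε / 2 * ((n : ℝ) - k + 1) ∧
      (j.choose t : ℝ) ≤ ε / 2 * ((k - 1).choose (t - 1) : ℝ) := by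
  have ht' : (2 : ℝ) ≤ t := by exact_mod_cast ht
  have htk' : (t : ℝ) ≤ k := by exact_mod_cast htk
  have hkn' : (k : ℝ) ≤ n := by exact_mod_cast hkn
  have hs' : min ((k : ℝ) - t) (((k : ℝ) - 1) / (t - 1) *
      Real.log (2 * (((k : ℝ) - 1) / (t - 1)) / ε) + 1) ≤ ε / 2 * ((n : ℝ) - k + 1) := by
    have h := mul_le_mul_of_nonneg_left hs (by positivity : (0 : ℝ) ≤ ε / 2)
    have e : ∀ x : ℝ, ε / 2 * (2 / ε * x) = x := by intro x; field_simp
    rwa [e] at h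
  have hCk : (0 : ℝ) < ((k - 1).choose (t - 1) : ℝ) := by
    exact_mod_cast Nat.choose_pos (by omega)
  -- the level t - 1
  have hbase : (k : ℝ) - t ≤ ε / 2 * ((n : ℝ) - k + 1) →
      ∃ j : ℕ, t - 1 ≤ j ∧ j ≤ k - 1 ∧ (k : ℝ) - 1 - j ≤ ε / 2 * ((n : ℝ) - k + 1) ∧
      (j.choose t : ℝ) ≤ ε / 2 * ((k - 1).choose (t - 1) : ℝ) := by
    intro h
    refine ⟨t - 1, le_rfl, by omega, ?_, ?_⟩
    · rw [Nat.cast_sub (by omega)]
      push_cast
      linarith
    · rw [Nat.choose_eq_zero_of_lt (by omega)]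
      push_cast
      positivity
  rcases min_le_iff.1 hs' with h | h
  · exact hbase h
  set q : ℝ := ((k : ℝ) - 1) / (t - 1) with hq
  have hq1 : 1 ≤ q := by
    rw [hq, le_div_iff₀ (by linarith)]; linarith
  have harg : 1 < 2 * q / ε := by
    rw [lt_div_iff₀ hε0]; linarith
  have hlog : 0 < Real.log (2 * q / ε) := Real.log_pos harg
  obtain ⟨R, hR⟩ : ∃ R : ℕ, R = ⌈q * Real.log (2 * q / ε)⌉₊ := ⟨_, rfl⟩
  have hR1 : q * Real.log (2 * q / ε) ≤ R := by rw [hR]; exact Nat.le_ceil _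
  have hR2 : (R : ℝ) < q * Real.log (2 * q / ε) + 1 := by
    rw [hR]; exact Nat.ceil_lt_add_one (by positivity)
  rcases Nat.lt_or_ge (k - t) R with h1 | h1
  · apply hbase
    have : ((k - t : ℕ) : ℝ) ≤ R := by exact_mod_cast h1.le
    rw [Nat.cast_sub htk] at this
    linarith
  refine ⟨k - 1 - R, by omega, by omega, ?_, ?_⟩
  · have : ((k - 1 - R : ℕ) : ℝ) = (k : ℝ) - 1 - R := by
      rw [Nat.cast_sub (by omega), Nat.cast_sub (by omega)]
      push_cast; ring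
    rw [this]
    linarith
  · obtain ⟨j, hj⟩ : ∃ j : ℕ, j = k - 1 - R := ⟨_, rfl⟩
    rw [← hj]
    have hjr : (j : ℝ) = (k : ℝ) - 1 - R := by
      rw [hj, Nat.cast_sub (by omega), Nat.cast_sub (by omega)]
      push_cast; ring
    have hk1 : (0 : ℝ) < (k : ℝ) - 1 := by linarith
    have ht1 : (0 : ℝ) < (t : ℝ) - 1 := by linarith
    have hjt : t - 1 ≤ j := by omega
    -- choose (t-1)
    have hp := choose_pow' j (k - 1) (by omega) (t - 1)
    have hk1c : ((k - 1 : ℕ) : ℝ) = (k : ℝ) - 1 := by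
      rw [Nat.cast_sub (by omega)]; push_cast; ring
    rw [hk1c] at hp
    have hfrac : (j : ℝ) ≤ ((k : ℝ) - 1) * Real.exp (-(R / ((k : ℝ) - 1))) := by
      have h2 := Real.add_one_le_exp (-(R / ((k : ℝ) - 1)))
      have h3 := mul_le_mul_of_nonneg_left h2 hk1.le
      have h4 : ((k : ℝ) - 1) * (-(R / ((k : ℝ) - 1)) + 1) = j := by
        rw [hjr]; field_simp; ring
      linarith
    have hpow : (j : ℝ) ^ (t - 1) ≤ ((k : ℝ) - 1) ^ (t - 1) * (ε / (2 * q)) := by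
      have h2 := pow_le_pow_left₀ (Nat.cast_nonneg j) hfrac (t - 1)
      rw [mul_pow, ← Real.exp_nat_mul] at h2
      refine h2.trans (mul_le_mul_of_nonneg_left ?_ (by positivity))
      have h3 : ((t - 1 : ℕ) : ℝ) * -(R / ((k : ℝ) - 1)) ≤ -Real.log (2 * q / ε) := by
        rw [Nat.cast_sub (by omega)]
        push_cast
        have h4 : ((t : ℝ) - 1) * (R / ((k : ℝ) - 1)) = R / q := by
          rw [hq]; field_simp
        have h5 : Real.log (2 * q / ε) ≤ R / q := by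
          rw [le_div_iff₀ (by linarith)]; linarith
        linarith
      calc Real.exp (((t - 1 : ℕ) : ℝ) * -(R / ((k : ℝ) - 1))) ≤
            Real.exp (-Real.log (2 * q / ε)) := Real.exp_le_exp.2 h3
        _ = ε / (2 * q) := by
            rw [Real.exp_neg, Real.exp_log (by positivity)]
            field_simp
    have hc1 : (j.choose (t - 1) : ℝ) ≤ ((k - 1).choose (t - 1) : ℝ) * (ε / (2 * q)) := by
      refine le_of_mul_le_mul_right ?_ (by positivity : (0 : ℝ) < ((k : ℝ) - 1) ^ (t - 1))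
      calc (j.choose (t - 1) : ℝ) * ((k : ℝ) - 1) ^ (t - 1)
          ≤ ((k - 1).choose (t - 1) : ℝ) * (j : ℝ) ^ (t - 1) := hp
        _ ≤ ((k - 1).choose (t - 1) : ℝ) * (((k : ℝ) - 1) ^ (t - 1) * (ε / (2 * q))) :=
            mul_le_mul_of_nonneg_left hpow hCk.le
        _ = _ := by ring
    have hc2 : (j.choose t : ℝ) ≤ q * (j.choose (t - 1) : ℝ) := by
      obtain ⟨r, rfl⟩ : ∃ r, t = r + 1 := ⟨t - 1, by omega⟩
      rw [Nat.add_sub_cancel] at hjt ⊢
      have e1 := Nat.choose_succ_right_eq j r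
      have e2 : ((j.choose (r + 1) * (r + 1) : ℕ) : ℝ) = ((j.choose r * (j - r) : ℕ) : ℝ) := by
        rw [e1]
      rw [Nat.cast_mul, Nat.cast_mul, Nat.cast_sub hjt] at e2
      push_cast at e2 hq ht1 ht'
      have hr1 : (0 : ℝ) < (r : ℝ) + 1 := by positivity
      have hr0 : (0 : ℝ) < (r : ℝ) := by linarith
      refine le_of_mul_le_mul_right ?_ hr1
      rw [e2]
      have h6 : (j : ℝ) - r ≤ q * ((r : ℝ) + 1) := by
        have h7 : q * (r : ℝ) = (k : ℝ) - 1 := by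
          rw [hq]; field_simp; ring
        have h8 : (j : ℝ) ≤ (k : ℝ) - 1 := by
          rw [hjr]; linarith [Nat.cast_nonneg (α := ℝ) R]
        nlinarith
      calc (j.choose r : ℝ) * ((j : ℝ) - r) ≤ (j.choose r : ℝ) * (q * ((r : ℝ) + 1)) :=
            mul_le_mul_of_nonneg_left h6 (Nat.cast_nonneg _)
        _ = _ := by ring
    calc (j.choose t : ℝ) ≤ q * (j.choose (t - 1) : ℝ) := hc2
      _ ≤ q * (((k - 1).choose (t - 1) : ℝ) * (ε / (2 * q))) :=
          mul_le_mul_of_nonneg_left hc1 (by linarith)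
      _ = _ := by field_simp

theorem eps_bound {t k n : ℕ} {ε T : ℝ} (ht : 2 ≤ t) (htk : t ≤ k) (hkn : k ≤ n)
    (hε0 : 0 < ε) (hε1 : ε ≤ 1) (hT : 0 ≤ T)
    (hlev : ∀ j : ℕ, t - 1 ≤ j → j ≤ k - 1 →
      ((n : ℝ) - k + 1) * (n.choose t : ℝ) ≤ T * (((n : ℝ) - j) * ((k - 1).choose (t - 1) : ℝ) +
        ((n : ℝ) - k + 1) * (j.choose t : ℝ)))
    (hs : 2 / ε * min ((k : ℝ) - t) (((k : ℝ) - 1) / (t - 1) *
      Real.log (2 * (((k : ℝ) - 1) / (t - 1)) / ε) + 1) ≤ (n : ℝ) - k + 1) :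
    (1 - ε) * ((n.choose t : ℝ) / ((k - 1).choose (t - 1) : ℝ)) ≤ T := by
  obtain ⟨j, h1, h2, h3, h4⟩ := exists_level ht htk hkn hε0 hε1 hs
  have h5 := hlev j h1 h2
  have hkn' : (k : ℝ) ≤ n := by exact_mod_cast hkn
  have hs0 : (0 : ℝ) < (n : ℝ) - k + 1 := by linarith
  have hCk : (0 : ℝ) < ((k - 1).choose (t - 1) : ℝ) := by
    exact_mod_cast Nat.choose_pos (by omega)
  have h6 : ((n : ℝ) - j) * ((k - 1).choose (t - 1) : ℝ) +
        ((n : ℝ) - k + 1) * (j.choose t : ℝ) ≤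
      ((n : ℝ) - k + 1) * ((1 + ε) * ((k - 1).choose (t - 1) : ℝ)) := by
    have h7 : (n : ℝ) - j ≤ ((n : ℝ) - k + 1) * (1 + ε / 2) := by nlinarith
    have h8 := mul_le_mul_of_nonneg_right h7 hCk.le
    have h9 := mul_le_mul_of_nonneg_left h4 hs0.le
    nlinarith
  have h7 := mul_le_mul_of_nonneg_left h6 hT
  have h8 : (n.choose t : ℝ) ≤ T * ((1 + ε) * ((k - 1).choose (t - 1) : ℝ)) := by
    refine le_of_mul_le_mul_left ?_ hs0
    calc _ ≤ _ := h5
      _ ≤ _ := h7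
      _ = _ := by ring
  rw [← mul_div_assoc, div_le_iff₀ hCk]
  have h9 : (1 - ε) * (n.choose t : ℝ) ≤
      (1 - ε) * (T * ((1 + ε) * ((k - 1).choose (t - 1) : ℝ))) :=
    mul_le_mul_of_nonneg_left h8 (by linarith)
  have h10 : (1 - ε) * (T * ((1 + ε) * ((k - 1).choose (t - 1) : ℝ))) =
      (1 - ε ^ 2) * (T * ((k - 1).choose (t - 1) : ℝ)) := by ring
  have h11 : 0 ≤ T * ((k - 1).choose (t - 1) : ℝ) := by positivity
  have h12 : (1 - ε ^ 2) * (T * ((k - 1).choose (t - 1) : ℝ)) ≤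
      1 * (T * ((k - 1).choose (t - 1) : ℝ)) :=
    mul_le_mul_of_nonneg_right (by nlinarith) h11
  linarith

end Pool.Agent.T2H14.N
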