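import Pool.Agent.T2H14.Top.Chain

/-!
A family of inequalities that contains de Caen's: one for every level.
-/

set_option autoImplicit false
set_option linter.unusedSectionVars false
set_option linter.unusedVariables false

namespace Pool.Agent.T2H14.N

open Finset Pool.Agent.T2H14.Top

variable {V : Type*} [Fintype V] [DecidableEq V] {F : Finset (Finset V)}

theorem core_self {A : Finset V} {u : V} (hu : u ∈ A) : (core F A u).card ≤ 1 := by
  have h1 : core F A u ⊆ {u} := by
    intro y hy
    obtain ⟨hyA, hy⟩ := mem_core.1 hy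
    rw [mem_Op] at hy
    rw [mem_singleton]
    by_contra hne
    exact hy.1 (mem_erase.2 ⟨fun h => hne h.symm, hu⟩)
  have h2 := card_le_card h1
  rwa [card_singleton] at h2

theorem ET_ge {t j : ℕ} (ht : 2 ≤ t) (hF : ∀ M ∈ F, M.card = t) :
    (j : ℝ) * ((t : ℝ) - 2) * aa F j ≤ ET F t j := by
  unfold ET
  have h1 : ∀ A ∈ Lev F j, (j : ℝ) * ((t : ℝ) - 2) ≤ ∑ u ∈ univ \ Op F A, ee F t A u := by
    intro A hA
    obtain ⟨hAj, hAI⟩ := mem_Lev.1 hA
    have hsub : A ⊆ univ \ Op F A := by
      intro u hu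
      rw [mem_sdiff, mem_Op]
      exact ⟨mem_univ _, fun h => h.1 hu⟩
    calc (j : ℝ) * ((t : ℝ) - 2) = ∑ u ∈ A, ((t : ℝ) - 2) := by
          rw [sum_const, nsmul_eq_mul, hAj]
      _ ≤ ∑ u ∈ A, ee F t A u := by
          refine sum_le_sum fun u hu => ?_
          have : ((core F A u).card : ℝ) ≤ 1 := by exact_mod_cast core_self hu
          unfold ee
          linarith
      _ ≤ _ := by
          refine sum_le_sum_of_subset_of_nonneg hsub fun u hu _ => ?_
          exact ee_nonneg ht hF hAI (mem_sdiff.1 hu).2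
  calc (j : ℝ) * ((t : ℝ) - 2) * aa F j = ∑ A ∈ Lev F j, (j : ℝ) * ((t : ℝ) - 2) := by
        rw [sum_const, nsmul_eq_mul, aa]; ring
    _ ≤ _ := sum_le_sum h1

/-- average number of closed points outside an independent `j`-set -/
noncomputable def xx (F : Finset (Finset V)) (j : ℕ) : ℝ := (Fintype.card V : ℝ) * ZZ F j - j

theorem xx_step {t j : ℕ} (ht : 2 ≤ t) (hF : ∀ M ∈ F, M.card = t) (hn : 0 < Fintype.card V)
    (h : 0 < aa F (j + 1)) :
    ((j : ℝ) + 2 - t) * xx F (j + 1) ≤ ((j : ℝ) + 1) * xx F j := by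
  have hn' : (0 : ℝ) < Fintype.card V := by exact_mod_cast hn
  have h1 := chain (F := F) (t := t) j hn h
  have h2 : ((j : ℝ) + 1) * ((t : ℝ) - 2) ≤ (Fintype.card V : ℝ) * EX F t (j + 1) := by
    have h3 := ET_ge (F := F) (t := t) (j := j + 1) ht hF
    push_cast at h3
    have h4 : (Fintype.card V : ℝ) * EX F t (j + 1) = ET F t (j + 1) / aa F (j + 1) := by
      unfold EX
      field_simp
    rw [h4, le_div_iff₀ h]
    exact h3
  have h3 := mul_le_mul_of_nonneg_left h1 hn'.le
  unfold xx
  push_cast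
  nlinarith

theorem xx_mul {j : ℕ} (h : 0 < aa F j) (hn : 0 < Fintype.card V) :
    xx F j * aa F j = ((Fintype.card V : ℝ) - j) * aa F j - ((j : ℝ) + 1) * aa F (j + 1) := by
  have hn' : (0 : ℝ) < Fintype.card V := by exact_mod_cast hn
  unfold xx ZZ XX
  field_simp
  ring

/-- the chain of inequalities from the top down to the level `j` -/
theorem xx_ge {t K : ℕ} (ht : 2 ≤ t) (hF : ∀ M ∈ F, M.card = t) (hn : 0 < Fintype.card V)
    (hK : 0 < aa F K) (hK1 : aa F (K + 1) = 0) :
    ∀ d j : ℕ, j + d = K → t - 1 ≤ j →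
      ((Fintype.card V : ℝ) - K) * (j.choose (t - 1) : ℝ) ≤ xx F j * (K.choose (t - 1) : ℝ) := by
  have hn' : (0 : ℝ) < Fintype.card V := by exact_mod_cast hn
  intro d
  induction d with
  | zero =>
    intro j hj _
    have hjK : j = K := by omega
    subst hjK
    have h1 := xx_mul hK hn
    rw [hK1] at h1
    have h2 : xx F j = (Fintype.card V : ℝ) - j := by
      have : (xx F j - ((Fintype.card V : ℝ) - j)) * aa F j = 0 := by linarith
      rcases mul_eq_zero.1 this with h3 | h3
      · linarith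
      · exact absurd h3 hK.ne'
    rw [h2]
  | succ d ih =>
    intro j hj hjt
    have h1 := ih (j + 1) (by omega) (by omega)
    have hpos : 0 < aa F (j + 1) := aa_pos_mono (by omega) hK
    have h2 := xx_step (t := t) ht hF hn hpos
    have hc : ((j : ℝ) + 1) * (j.choose (t - 1) : ℝ) =
        ((j : ℝ) + 2 - t) * ((j + 1).choose (t - 1) : ℝ) := by
      have h3 := Nat.choose_mul_succ_eq j (t - 1)
      have h4 : ((j.choose (t - 1) * (j + 1) : ℕ) : ℝ) =
          (((j + 1).choose (t - 1) * (j + 1 - (t - 1)) : ℕ) : ℝ) := by rw [h3]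
      have h5 : ((j + 1 - (t - 1) : ℕ) : ℝ) = (j : ℝ) + 2 - t := by
        rw [Nat.cast_sub (by omega), Nat.cast_sub (by omega)]
        push_cast; ring
      rw [Nat.cast_mul, Nat.cast_mul, h5] at h4
      push_cast at h4
      linarith
    have hjt' : (t : ℝ) ≤ (j : ℝ) + 1 := by
      have : t ≤ j + 1 := by omega
      exact_mod_cast this
    have hj1 : (0 : ℝ) < (j : ℝ) + 1 := by positivity
    have hK0 : (0 : ℝ) ≤ (K.choose (t - 1) : ℝ) := Nat.cast_nonneg _
    have h6 := mul_le_mul_of_nonneg_left h1 (by linarith : (0 : ℝ) ≤ (j : ℝ) + 2 - t)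
    have h7 := mul_le_mul_of_nonneg_right h2 hK0
    refine le_of_mul_le_mul_left ?_ hj1
    calc ((j : ℝ) + 1) * (((Fintype.card V : ℝ) - K) * (j.choose (t - 1) : ℝ))
        = ((Fintype.card V : ℝ) - K) * (((j : ℝ) + 1) * (j.choose (t - 1) : ℝ)) := by ring
      _ = ((j : ℝ) + 2 - t) * (((Fintype.card V : ℝ) - K) * ((j + 1).choose (t - 1) : ℝ)) := by
          rw [hc]; ring
      _ ≤ _ := h6
      _ = ((j : ℝ) + 2 - t) * xx F (j + 1) * (K.choose (t - 1) : ℝ) := by ring
      _ ≤ _ := h7
      _ = _ := by ring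

/-- number of sets of a given size that contain a given set -/
theorem card_super (E : Finset V) (j : ℕ) :
    (((univ : Finset V).powersetCard j).filter (fun B => E ⊆ B)).card *
      (Fintype.card V).choose E.card = (Fintype.card V).choose j * j.choose E.card := by
  rcases Nat.lt_or_ge j E.card with h | h
  · rw [Nat.choose_eq_zero_of_lt h, mul_zero]
    rw [filter_eq_empty_iff.2, card_empty, zero_mul]
    intro B hB hEB
    have := card_le_card hEB
    rw [(mem_powersetCard.1 hB).2] at this
    omega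
  · have h1 : (((univ : Finset V).powersetCard j).filter (fun B => E ⊆ B)).card =
        ((univ \ E : Finset V).powersetCard (j - E.card)).card := by
      refine card_bij' (fun B _ => B \ E) (fun C _ => C ∪ E) ?_ ?_ ?_ ?_
      · intro B hB
        obtain ⟨h1, h2⟩ := mem_filter.1 hB
        rw [mem_powersetCard]
        refine ⟨sdiff_subset_sdiff (subset_univ _) (Subset.refl _), ?_⟩
        rw [card_sdiff_of_subset h2, (mem_powersetCard.1 h1).2]
      · intro C hC
        obtain ⟨h1, h2⟩ := mem_powersetCard.1 hC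
        have hd : Disjoint C E := by
          rw [disjoint_left]
          intro x hx hxE
          exact (mem_sdiff.1 (h1 hx)).2 hxE
        rw [mem_filter, mem_powersetCard]
        refine ⟨⟨subset_univ _, ?_⟩, subset_union_right⟩
        rw [card_union_of_disjoint hd, h2]
        omega
      · intro B hB
        obtain ⟨h1, h2⟩ := mem_filter.1 hB
        exact sdiff_union_of_subset h2
      · intro C hC
        obtain ⟨h1, h2⟩ := mem_powersetCard.1 hC
        have hd : Disjoint C E := by
          rw [disjoint_left]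
          intro x hx hxE
          exact (mem_sdiff.1 (h1 hx)).2 hxE
        simp only [union_sdiff_right]
        exact sdiff_eq_self_of_disjoint hd
    rw [h1, card_powersetCard, card_sdiff_of_subset (subset_univ _), card_univ, mul_comm,
      ← Nat.choose_mul h]

/-- the independent sets of size `j` are almost all sets, if the family is small -/
theorem aa_ge {t j : ℕ} (hF : ∀ M ∈ F, M.card = t) :
    (((Fintype.card V).choose j : ℝ) - aa F j) * ((Fintype.card V).choose t : ℝ) ≤
      (F.card : ℝ) * (((Fintype.card V).choose j : ℝ) * (j.choose t : ℝ)) := by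
  have h1 : ((univ : Finset V).powersetCard j) ⊆
      Lev F j ∪ F.biUnion fun E => ((univ : Finset V).powersetCard j).filter (fun B => E ⊆ B) := by
    intro B hB
    by_cases hI : Ind F B
    · exact mem_union_left _ (mem_Lev.2 ⟨(mem_powersetCard.1 hB).2, hI⟩)
    · obtain ⟨M, hM, hMB⟩ := exists_member hI
      exact mem_union_right _ (mem_biUnion.2 ⟨M, hM, mem_filter.2 ⟨hB, hMB⟩⟩)
  have h2 := (card_le_card h1).trans (card_union_le _ _)
  have h3 : (F.biUnion fun E => ((univ : Finset V).powersetCard j).filter (fun B => E ⊆ B)).card ≤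
      ∑ E ∈ F, (((univ : Finset V).powersetCard j).filter (fun B => E ⊆ B)).card :=
    card_biUnion_le
  have h4 : (Fintype.card V).choose j ≤ (Lev F j).card +
      ∑ E ∈ F, (((univ : Finset V).powersetCard j).filter (fun B => E ⊆ B)).card := by
    rw [card_powersetCard, card_univ] at h2
    exact h2.trans (by omega)
  have h5 : (∑ E ∈ F, (((univ : Finset V).powersetCard j).filter (fun B => E ⊆ B)).card) *
      (Fintype.card V).choose t = F.card * ((Fintype.card V).choose j * j.choose t) := by
    rw [sum_mul, ← smul_eq_mul F.card, ← sum_const]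
    refine sum_congr rfl fun E hE => ?_
    rw [← hF E hE]
    exact card_super E j
  have h6 := Nat.mul_le_mul_right ((Fintype.card V).choose t) h4
  rw [add_mul, h5] at h6
  have h7 : (((Fintype.card V).choose j * (Fintype.card V).choose t : ℕ) : ℝ) ≤
      (((Lev F j).card * (Fintype.card V).choose t +
        F.card * ((Fintype.card V).choose j * j.choose t) : ℕ) : ℝ) := by exact_mod_cast h6
  push_cast at h7
  unfold aa
  linarith

/-- the closed pairs of a level, counted from above -/
theorem closed_le {t j : ℕ} (ht : 2 ≤ t) (hF : ∀ M ∈ F, M.card = t) :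
    (((Fintype.card V : ℝ) - j) * aa F j - ((j : ℝ) + 1) * aa F (j + 1)) *
      ((Fintype.card V).choose t : ℝ) ≤
      (F.card : ℝ) * ((t : ℝ) * ((((Fintype.card V).choose (j + 1) : ℕ) : ℝ) *
        (((j + 1).choose t : ℕ) : ℝ))) := by
  -- pairs
  set P : Finset (Σ _ : Finset V, V) := (Lev F j).sigma fun A => (univ \ A) \ Op F A with hP
  have hPc : ((P.card : ℕ) : ℝ) =
      ((Fintype.card V : ℝ) - j) * aa F j - ((j : ℝ) + 1) * aa F (j + 1) := by
    rw [hP, card_sigma]
    push_cast
    have h1 : ∀ A ∈ Lev F j, ((((univ \ A) \ Op F A).card : ℕ) : ℝ) =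
        ((Fintype.card V : ℝ) - j) - ((Op F A).card : ℝ) := by
      intro A hA
      have hsub : Op F A ⊆ univ \ A := by
        intro v hv
        rw [mem_sdiff]
        exact ⟨mem_univ _, (mem_Op.1 hv).1⟩
      rw [card_sdiff_of_subset hsub, Nat.cast_sub (card_le_card hsub),
        card_sdiff_of_subset (subset_univ _), card_univ, Nat.cast_sub, (mem_Lev.1 hA).1]
      exact card_le_univ _
    rw [sum_congr rfl h1, sum_sub_distrib, sum_Op, sum_const, nsmul_eq_mul]
    simp only [aa]
    ring
  rw [← hPc]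
  set Q : Finset (Σ _ : Finset V, Σ _ : Finset V, V) := F.sigma fun E =>
    (((univ : Finset V).powersetCard (j + 1)).filter (fun B => E ⊆ B)).sigma fun _ => E with hQ
  have hsurj : ∀ p ∈ P, ∃ q ∈ Q, (⟨q.2.1.erase q.2.2, q.2.2⟩ : Σ _ : Finset V, V) = p := by
    rintro ⟨A, y⟩ hp
    rw [hP, mem_sigma] at hp
    obtain ⟨hA, hy⟩ := hp
    rw [mem_sdiff, mem_sdiff] at hy
    obtain ⟨⟨_, hyA⟩, hyO⟩ := hy
    simp only at hyA hyO hA
    obtain ⟨hAc, hAI⟩ := mem_Lev.1 hA
    have hnI : ¬ Ind F (insert y A) := fun h => hyO (mem_Op.2 ⟨hyA, h⟩)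
    obtain ⟨M, hM, hMA⟩ := exists_member hnI
    have hyM : y ∈ M := by
      by_contra h
      refine hAI M hM fun z hz => ?_
      rcases mem_insert.1 (hMA hz) with h' | h'
      · exact absurd (h' ▸ hz) h
      · exact h'
    refine ⟨⟨M, insert y A, y⟩, ?_, ?_⟩
    · rw [hQ, mem_sigma]
      refine ⟨hM, mem_sigma.2 ⟨mem_filter.2 ⟨mem_powersetCard.2 ⟨subset_univ _, ?_⟩, hMA⟩, hyM⟩⟩
      rw [card_insert_of_notMem hyA, hAc]
    · simp [erase_insert hyA]
  have hle : P.card ≤ Q.card := by
    have : P ⊆ Q.image fun q => (⟨q.2.1.erase q.2.2, q.2.2⟩ : Σ _ : Finset V, V) := by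
      intro p hp
      obtain ⟨q, hq, hqp⟩ := hsurj p hp
      exact mem_image.2 ⟨q, hq, hqp⟩
    exact (card_le_card this).trans card_image_le
  have hQc : Q.card * (Fintype.card V).choose t =
      F.card * (t * ((Fintype.card V).choose (j + 1) * (j + 1).choose t)) := by
    rw [hQ, card_sigma, sum_mul, ← smul_eq_mul F.card, ← sum_const]
    refine sum_congr rfl fun E hE => ?_
    rw [card_sigma, sum_const, smul_eq_mul, hF E hE]
    have h1 := card_super E (j + 1)
    rw [hF E hE] at h1
    calc _ = t * ((((univ : Finset V).powersetCard (j + 1)).filter (fun B => E ⊆ B)).card *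
          (Fintype.card V).choose t) := by ring
      _ = _ := by rw [h1]
  have h1 : ((P.card * (Fintype.card V).choose t : ℕ) : ℝ) ≤
      ((Q.card * (Fintype.card V).choose t : ℕ) : ℝ) := by
    exact_mod_cast Nat.mul_le_mul_right _ hle
  rw [hQc] at h1
  push_cast at h1
  exact h1

/-- One inequality for every level `j` between `t - 1` and `n`; de Caen's is the case
`j = t - 1`. -/
theorem level_ineq {t k j : ℕ} (ht : 2 ≤ t) (htk : t ≤ k) (hF : ∀ M ∈ F, M.card = t)
    (hI : ∀ B : Finset V, Ind F B → B.card ≤ k - 1) (hkn : k ≤ Fintype.card V)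
    (hj : t - 1 ≤ j) (hjn : j ≤ Fintype.card V) :
    ((Fintype.card V : ℝ) - k + 1) * ((Fintype.card V).choose t : ℝ) ≤
      (F.card : ℝ) * (((Fintype.card V : ℝ) - j) * ((k - 1).choose (t - 1) : ℝ) +
        ((Fintype.card V : ℝ) - k + 1) * (j.choose t : ℝ)) := by
  have hn : 0 < Fintype.card V := by omega
  set n := Fintype.card V with hndef
  have hn' : (0 : ℝ) < n := by exact_mod_cast hn
  have hkn' : (k : ℝ) ≤ n := by exact_mod_cast hkn
  -- the top
  have hemp : 0 < aa F 0 := by
    have : (∅ : Finset V) ∈ Lev F 0 := by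
      rw [mem_Lev]
      refine ⟨card_empty, fun M hM hsub => ?_⟩
      have := hF M hM
      rw [subset_empty.1 hsub, card_empty] at this
      omega
    unfold aa
    exact_mod_cast card_pos.2 ⟨_, this⟩
  have hbig : ∀ i, k ≤ i → aa F i = 0 := by
    intro i hi
    unfold aa
    have : Lev F i = ∅ := by
      rw [eq_empty_iff_forall_notMem]
      intro B hB
      obtain ⟨h1, h2⟩ := mem_Lev.1 hB
      have := hI B h2
      omega
    rw [this]; simp
  -- main inequality (1)
  have h1 : ((n : ℝ) - k + 1) * (j.choose (t - 1) : ℝ) * aa F j ≤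
      ((k - 1).choose (t - 1) : ℝ) *
        (((n : ℝ) - j) * aa F j - ((j : ℝ) + 1) * aa F (j + 1)) := by
    rcases eq_or_lt_of_le (aa_nonneg (F := F) j) with h0 | h0
    · have h0' : aa F (j + 1) = 0 := by
        by_contra hne
        have hpos : 0 < aa F (j + 1) := lt_of_le_of_ne (aa_nonneg _) (Ne.symm hne)
        exact absurd h0.symm (aa_pos_of_succ hpos).ne'
      rw [← h0, h0']
      simp
    · -- top level above j
      have hex : ∃ K, j ≤ K ∧ 0 < aa F K ∧ aa F (K + 1) = 0 := by
        by_contra hcon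
        push Not at hcon
        have hall : ∀ d, 0 < aa F (j + d) := by
          intro d
          induction d with
          | zero => exact h0
          | succ d ih =>
            have := hcon (j + d) (by omega) ih
            exact lt_of_le_of_ne (aa_nonneg _) (Ne.symm this)
        have := hall k
        rw [hbig (j + k) (by omega)] at this
        exact lt_irrefl _ this
      obtain ⟨K, hjK, hK, hK1⟩ := hex
      have hKk : K ≤ k - 1 := by
        by_contra hcon
        push Not at hcon
        rw [hbig K (by omega)] at hK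
        exact lt_irrefl _ hK
      have h2 := xx_ge (t := t) ht hF hn hK hK1 (K - j) j (by omega) hj
      have hKr : (K : ℝ) + 1 ≤ k := by
        have : K + 1 ≤ k := by omega
        exact_mod_cast this
      have hcm : (K.choose (t - 1) : ℝ) ≤ ((k - 1).choose (t - 1) : ℝ) := by
        exact_mod_cast Nat.choose_le_choose (t - 1) hKk
      have hKt : (0 : ℝ) < (K.choose (t - 1) : ℝ) := by
        exact_mod_cast Nat.choose_pos (by omega : t - 1 ≤ K)
      have hjc : (0 : ℝ) ≤ (j.choose (t - 1) : ℝ) := Nat.cast_nonneg _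
      have h3 : ((n : ℝ) - k + 1) * (j.choose (t - 1) : ℝ) ≤ xx F j * (K.choose (t - 1) : ℝ) := by
        refine le_trans ?_ h2
        exact mul_le_mul_of_nonneg_right (by rw [← hndef]; linarith) hjc
      have hx0 : 0 ≤ xx F j := by
        have h4 : 0 ≤ xx F j * (K.choose (t - 1) : ℝ) := by
          refine le_trans ?_ h3
          exact mul_nonneg (by linarith) hjc
        by_contra hneg
        push Not at hneg
        have := mul_neg_of_neg_of_pos hneg hKt
        linarith
      have h4 : ((n : ℝ) - k + 1) * (j.choose (t - 1) : ℝ) ≤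
          xx F j * ((k - 1).choose (t - 1) : ℝ) :=
        h3.trans (mul_le_mul_of_nonneg_left hcm hx0)
      have h5 := mul_le_mul_of_nonneg_right h4 h0.le
      have h6 := xx_mul (F := F) h0 hn
      rw [← hndef] at h6
      calc _ ≤ xx F j * ((k - 1).choose (t - 1) : ℝ) * aa F j := h5
        _ = ((k - 1).choose (t - 1) : ℝ) * (xx F j * aa F j) := by ring
        _ = _ := by rw [h6]
  have h2 := closed_le (F := F) (t := t) (j := j) ht hF
  have h3 := aa_ge (F := F) (t := t) (j := j) hF
  rw [← hndef] at h2 h3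
  have hid : (t : ℝ) * (((n.choose (j + 1) : ℕ) : ℝ) * (((j + 1).choose t : ℕ) : ℝ)) =
      (n.choose j : ℝ) * ((n : ℝ) - j) * (j.choose (t - 1) : ℝ) := by
    have e1 := Nat.choose_succ_right_eq n j
    have e1' : ((n.choose (j + 1) * (j + 1) : ℕ) : ℝ) = ((n.choose j * (n - j) : ℕ) : ℝ) := by
      rw [e1]
    rw [Nat.cast_mul, Nat.cast_mul, Nat.cast_sub hjn] at e1'
    obtain ⟨r, rfl⟩ : ∃ r, t = r + 1 := ⟨t - 1, by omega⟩
    have e2 := Nat.add_one_mul_choose_eq j r
    have e2' : (((j + 1) * j.choose r : ℕ) : ℝ) = (((j + 1).choose (r + 1) * (r + 1) : ℕ) : ℝ) := by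
      rw [e2]
    rw [Nat.cast_mul, Nat.cast_mul] at e2'
    push_cast at e1' e2' ⊢
    calc ((r : ℝ) + 1) * ((n.choose (j + 1) : ℝ) * ((j + 1).choose (r + 1) : ℝ))
        = (n.choose (j + 1) : ℝ) * (((j + 1).choose (r + 1) : ℝ) * ((r : ℝ) + 1)) := by ring
      _ = (n.choose (j + 1) : ℝ) * ((j : ℝ) + 1) * (j.choose r : ℝ) := by rw [← e2']; ring
      _ = _ := by rw [e1']
  rw [hid] at h2
  have hcj : (0 : ℝ) < (n.choose j : ℝ) := by exact_mod_cast Nat.choose_pos hjn
  have hcjt : (0 : ℝ) < (j.choose (t - 1) : ℝ) := by exact_mod_cast Nat.choose_pos hj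
  have hct : (0 : ℝ) ≤ (n.choose t : ℝ) := Nat.cast_nonneg _
  have hs : (0 : ℝ) < (n : ℝ) - k + 1 := by linarith
  have hCk : (0 : ℝ) ≤ ((k - 1).choose (t - 1) : ℝ) := Nat.cast_nonneg _
  have h4 := mul_le_mul_of_nonneg_right h1 hct
  have h5 := mul_le_mul_of_nonneg_left h2 hCk
  have h6 := mul_le_mul_of_nonneg_left h3 (mul_nonneg hs.le hcjt.le)
  refine le_of_mul_le_mul_left ?_ (mul_pos hcjt hcj)
  nlinarith

end Pool.Agent.T2H14.N
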